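import Pool.Agent.Helper31.BQ.Stmts3

/-! Row B2 of the sheet BE (second copy): the limit map followed by `j` is Baire-one. -/

set_option autoImplicit false

namespace Pool.Agent.Helper48.BQ

open Filter Topology Pool.Agent.Helper31.BQ

universe u

section
variable {Y : Type u} [NormedAddCommGroup Y] [NormedSpace ℝ Y]

/-- a continuous approximate lift on the unit ball of a finite-dimensional quotient -/
theorem lift (N : Submodule ℝ Y) (hN : IsClosed (N : Set Y)) (hf : FiniteDimensional ℝ (Y ⧸ N))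
    {ε : ℝ} (hε : 0 < ε) : ∃ z : Y ⧸ N → Y, (∀ u, ‖u‖ ≤ 1 → ContinuousAt z u) ∧
      ∀ u, ‖u‖ ≤ 1 → ‖z u‖ ≤ 2 ∧ ‖N.mkQ (z u) - u‖ ≤ ε := by
  classical
  have : IsClosed (N : Set Y) := hN
  have : ProperSpace (Y ⧸ N) := FiniteDimensional.proper ℝ (Y ⧸ N)
  obtain ⟨t, htB, htf, hcov⟩ := (isCompact_closedBall (0 : Y ⧸ N) 1).finite_cover_balls hε
  have hl : ∀ v : Y ⧸ N, ∃ y : Y, N.mkQ y = v ∧ ‖y‖ < ‖v‖ + 1 := fun v => by
    obtain ⟨y, hy1, hy2⟩ := Submodule.Quotient.norm_mk_lt v one_pos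
    exact ⟨y, hy1, hy2⟩
  choose l hl1 hl2 using hl
  set s := htf.toFinset with hs
  let w : (Y ⧸ N) → (Y ⧸ N) → ℝ := fun v u => max 0 (ε - ‖u - v‖)
  let W : (Y ⧸ N) → ℝ := fun u => ∑ v ∈ s, w v u
  have hw0 : ∀ v u, 0 ≤ w v u := fun v u => le_max_left _ _
  have hwc : ∀ v, Continuous (w v) := fun v => by
    have : Continuous fun u : Y ⧸ N => ‖u - v‖ := (continuous_id.sub continuous_const).norm
    exact continuous_const.max (continuous_const.sub this)
  have hWc : Continuous W := continuous_finsetSum _ fun v _ => hwc v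
  have hWp : ∀ u, ‖u‖ ≤ 1 → 0 < W u := fun u hu => by
    have h1 : u ∈ ⋃ x ∈ t, Metric.ball x ε := hcov (by simpa using hu)
    simp only [Set.mem_iUnion, Metric.mem_ball, dist_eq_norm, exists_prop] at h1
    obtain ⟨v, hv, hvu⟩ := h1
    have h2 : 0 < w v u := lt_max_of_lt_right (by linarith)
    exact h2.trans_le (Finset.single_le_sum (f := fun v => w v u) (fun v _ => hw0 v u)
      (htf.mem_toFinset.2 hv))
  refine ⟨fun u => (W u)⁻¹ • ∑ v ∈ s, w v u • l v, fun u hu => ?_, fun u hu => ⟨?_, ?_⟩⟩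
  · refine ContinuousAt.smul (hWc.continuousAt.inv₀ (hWp u hu).ne') ?_
    exact (continuous_finsetSum _ fun v _ => (hwc v).smul continuous_const).continuousAt
  · have h1 : ‖∑ v ∈ s, w v u • l v‖ ≤ W u * 2 := by
      rw [Finset.sum_mul]
      refine (norm_sum_le _ _).trans (Finset.sum_le_sum fun v hv => ?_)
      rw [norm_smul, Real.norm_of_nonneg (hw0 v u)]
      refine mul_le_mul_of_nonneg_left ?_ (hw0 v u)
      have h2 : ‖v‖ ≤ 1 := by simpa using htB (htf.mem_toFinset.1 hv)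
      linarith [hl2 v]
    rw [norm_smul, Real.norm_of_nonneg (inv_nonneg.2 (hWp u hu).le), inv_mul_le_iff₀ (hWp u hu)]
    exact h1
  · have h1 : N.mkQ ((W u)⁻¹ • ∑ v ∈ s, w v u • l v) - u =
        (W u)⁻¹ • ∑ v ∈ s, w v u • (v - u) := by
      have h2 : ∑ v ∈ s, w v u • (v - u) = (∑ v ∈ s, w v u • v) - W u • u := by
        simp only [smul_sub, Finset.sum_sub_distrib]
        rw [← Finset.sum_smul]
      rw [h2, smul_sub, smul_smul, inv_mul_cancel₀ (hWp u hu).ne', one_smul, map_smul, map_sum]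
      simp only [map_smul, hl1]
    rw [h1, norm_smul, Real.norm_of_nonneg (inv_nonneg.2 (hWp u hu).le),
      inv_mul_le_iff₀ (hWp u hu), Finset.sum_mul]
    refine (norm_sum_le _ _).trans (Finset.sum_le_sum fun v hv => ?_)
    rw [norm_smul, Real.norm_of_nonneg (hw0 v u)]
    by_cases h3 : ‖v - u‖ ≤ ε
    · exact mul_le_mul_of_nonneg_left h3 (hw0 v u)
    · have h4 : w v u = 0 := by
        rw [norm_sub_rev] at h3
        exact max_eq_left (by linarith [not_le.1 h3])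
      rw [h4]
      simp

/-- the quotient norm decreases with the quotient -/
theorem nmono {N P : Submodule ℝ Y} (h : N ≤ P) (y : Y) : ‖P.mkQ y‖ ≤ ‖N.mkQ y‖ := by
  refine le_of_forall_pos_le_add fun ε hε => ?_
  obtain ⟨y', h1, h2⟩ := Submodule.Quotient.norm_mk_lt (N.mkQ y) hε
  have h3 : P.mkQ y = P.mkQ y' := by
    have h4 : y' - y ∈ N := (Submodule.Quotient.eq N).1 h1
    exact ((Submodule.Quotient.eq P).2 (h h4)).symm
  rw [h3]
  exact (Submodule.Quotient.norm_mk_le P y').trans h2.le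

end

theorem st_B2 : ST_B2.{u} := by
  intro Y E _ _ _ _ M hM j hPP hJC f hf
  have h1 : ∀ n : ℕ, ∃ z : Y ⧸ M n → Y, (∀ u, ‖u‖ ≤ 1 → ContinuousAt z u) ∧
      ∀ u, ‖u‖ ≤ 1 → ‖z u‖ ≤ 2 ∧ ‖(M n).mkQ (z u) - u‖ ≤ 1 / ((n : ℝ) + 1) := fun n =>
    lift (M n) (hPP.1 n) (hPP.2.1 n) (by positivity)
  choose z hzc hz using h1
  refine ⟨fun n φ => j (z n ((φ : ∀ n, Y ⧸ M n) n)), fun n => ?_, fun φ => ?_⟩
  · refine j.continuous.comp ?_
    rw [continuous_iff_continuousAt]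
    intro φ
    have h2 : ContinuousAt (fun φ : XX hM => (φ : ∀ n, Y ⧸ M n) n) φ :=
      ((continuous_apply n).comp continuous_subtype_val).continuousAt
    exact ContinuousAt.comp (f := fun φ : XX hM => (φ : ∀ n, Y ⧸ M n) n)
      (hzc n _ (φ.2.1 n)) h2
  · refine hJC (fun n => z n ((φ : ∀ n, Y ⧸ M n) n)) 2 (f φ) (fun n => (hz n _ (φ.2.1 n)).1)
      fun m => ?_
    rw [tendsto_iff_norm_sub_tendsto_zero]
    have h3 : Tendsto (fun n : ℕ => 1 / ((n : ℝ) + 1) +
        ‖(M n).mkQ (f φ) - (φ : ∀ n, Y ⧸ M n) n‖) atTop (𝓝 0) := by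
      have := tendsto_one_div_add_atTop_nhds_zero_nat (𝕜 := ℝ)
      simpa using this.add (hf φ)
    refine squeeze_zero' (Eventually.of_forall fun n => norm_nonneg _) ?_ h3
    filter_upwards [eventually_ge_atTop m] with n hn
    rw [← map_sub]
    refine (nmono (hM hn) _).trans ?_
    rw [map_sub]
    calc ‖(M n).mkQ (z n ((φ : ∀ n, Y ⧸ M n) n)) - (M n).mkQ (f φ)‖
        = ‖((M n).mkQ (z n ((φ : ∀ n, Y ⧸ M n) n)) - (φ : ∀ n, Y ⧸ M n) n) -
            ((M n).mkQ (f φ) - (φ : ∀ n, Y ⧸ M n) n)‖ := by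
          congr 1
          abel
      _ ≤ _ := (norm_sub_le _ _).trans (add_le_add (hz n _ (φ.2.1 n)).2 le_rfl)

end Pool.Agent.Helper48.BQ
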